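import Pool.Agent.helper86.OF.SpecB

set_option autoImplicit false

/-! Module `BL5` of project of (MP_c62920_co). -/

open scoped BigOperators

namespace Pool.Agent.OF

noncomputable section

open Classical

variable {V : Type} [Fintype V]

theorem BL5_has (K : SimpleGraph V) (c : Sym2 V → ℕ) (v w : V) (γ : ℕ) (x : V) (hv : x ≠ v)
    (hw : x ≠ w) (i : ℕ) :
    has K (Function.update c s(v, w) γ) x i ↔ has K c x i := by
  have h : ∀ u, Function.update c s(v, w) γ s(x, u) = c s(x, u) := by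
    intro u
    rw [Function.update_of_ne]
    intro h
    rw [Sym2.eq_iff] at h
    rcases h with ⟨h, -⟩ | ⟨h, -⟩
    · exact hv h
    · exact hw h
  unfold has
  simp only [h]

theorem BL5_upd (K : SimpleGraph V) (X : Finset V) (D p : ℕ) (x0 y0 : V)
    (c : Sym2 V → ℕ) (α γ : ℕ) (h : BCo K X D p x0 y0 c α) (v w : V) (hv : v ∉ X) (hw : w ∉ X)
    (hadj : (Kd K x0 y0).Adj v w) (hc : c s(v, w) = α) (hγ : γ < D) (hne : γ ≠ α)
    (h1 : ¬ has (Kd K x0 y0) c v γ) (h2 : ¬ has (Kd K x0 y0) c w γ) :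
    BCo K X D p x0 y0 (Function.update c s(v, w) γ) α ∧
      yyc K X x0 y0 (Function.update c s(v, w) γ) α < yyc K X x0 y0 c α := by
  have hn : ∀ i, nX (Kd K x0 y0) (Function.update c s(v, w) γ) X i = nX (Kd K x0 y0) c X i := by
    intro i
    unfold nX
    congr 1
    refine Finset.filter_congr fun x hx => ?_
    exact BL5_has _ c v w γ x (fun h => hv (h ▸ hx)) (fun h => hw (h ▸ hx)) i
  have hα : ∀ e, Function.update c s(v, w) γ e = α → e ≠ s(v, w) ∧ c e = α := by
    intro e he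
    by_cases h3 : e = s(v, w)
    · rw [h3, Function.update_self] at he
      exact absurd he hne
    · rw [Function.update_of_ne h3] at he
      exact ⟨h3, he⟩
  have hEq : ∀ a b u : V, s(a, b) = s(v, w) → (Kd K x0 y0).Adj a u → c s(a, u) ≠ γ := by
    intro a b u h3 h4 h5
    rw [Sym2.eq_iff] at h3
    rcases h3 with ⟨rfl, -⟩ | ⟨rfl, -⟩
    · exact h1 ⟨u, h4, h5⟩
    · exact h2 ⟨u, h4, h5⟩
  refine ⟨⟨⟨?_, ?_⟩, h.lt, ?_, ?_, ?_⟩, ?_⟩
  · intro a b hab
    by_cases h3 : s(a, b) = s(v, w)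
    · rw [h3, Function.update_self]
      exact hγ
    · rw [Function.update_of_ne h3]
      exact h.pec.1 a b hab
  · intro a b b' hab hab' he
    by_cases h3 : s(a, b) = s(v, w)
    · by_cases h4 : s(a, b') = s(v, w)
      · have h5 := h3.trans h4.symm
        rw [Sym2.eq_iff] at h5
        rcases h5 with ⟨-, h5⟩ | ⟨h5, h6⟩
        · exact h5
        · rw [h6, ← h5]
      · rw [h3, Function.update_self, Function.update_of_ne h4] at he
        exact absurd he.symm (hEq a b b' h3 hab')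
    · by_cases h4 : s(a, b') = s(v, w)
      · rw [h4, Function.update_self, Function.update_of_ne h3] at he
        exact absurd he (hEq a b' b h4 hab)
      · rw [Function.update_of_ne h3, Function.update_of_ne h4] at he
        exact h.pec.2 a b b' hab hab' he
  · rintro ⟨u, hu, hu'⟩
    exact h.mis ⟨u, hu, (hα _ hu').2⟩
  · intro i hi hiα
    rw [hn]
    exact h.par i hi hiα
  · rw [hn]
    exact h.bad
  · unfold yyc
    refine Finset.card_lt_card ?_
    rw [Finset.ssubset_iff_of_subset]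
    · refine ⟨v, ?_, ?_⟩
      · rw [Finset.mem_filter]
        exact ⟨Finset.mem_univ _, hv, w, hw, hadj, hc⟩
      · rw [Finset.mem_filter]
        rintro ⟨-, -, u, -, hu, hu'⟩
        obtain ⟨h3, h4⟩ := hα _ hu'
        have h5 := h.pec.2 v u w hu hadj (h4.trans hc.symm)
        exact h3 (by rw [h5])
    · intro a ha
      rw [Finset.mem_filter] at ha ⊢
      obtain ⟨-, ha1, u, hu, hu1, hu2⟩ := ha
      exact ⟨Finset.mem_univ _, ha1, u, hu, hu1, (hα _ hu2).2⟩

theorem BL5 (hBL3 : BL3_stmt) (hBL4 : BL4_stmt) : BL5_stmt := by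
  intro V _ K X D p x0 y0 r B hB hG hex
  -- first choice
  have ex1 : ∃ n : ℕ, ∃ c α, BCo K X D p x0 y0 c α ∧ yyc K X x0 y0 c α = n := by
    obtain ⟨c, α, h⟩ := hex
    exact ⟨_, c, α, h, rfl⟩
  have hn := Nat.find_spec ex1
  have hnm : ∀ c α, BCo K X D p x0 y0 c α → Nat.find ex1 ≤ yyc K X x0 y0 c α := fun c α h =>
    Nat.find_min' ex1 ⟨c, α, h, rfl⟩
  have ex2 : ∃ n : ℕ, ∃ c α, (BCo K X D p x0 y0 c α ∧ yyc K X x0 y0 c α = Nat.find ex1) ∧
      (hvc K X x0 y0 r B c α).card = n := by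
    obtain ⟨c, α, h⟩ := hn
    exact ⟨_, c, α, h, rfl⟩
  obtain ⟨c, α, ⟨hb, hy⟩, hm⟩ := Nat.find_spec ex2
  have hmm : ∀ c α, BCo K X D p x0 y0 c α → yyc K X x0 y0 c α = Nat.find ex1 →
      Nat.find ex2 ≤ (hvc K X x0 y0 r B c α).card := fun c α h h' =>
    Nat.find_min' ex2 ⟨c, α, ⟨h, h'⟩, rfl⟩
  refine ⟨c, α, hb, ?_, ?_⟩
  · by_contra hcard
    have hcard' : 1 < (hvc K X x0 y0 r B c α).card := by omega
    obtain ⟨x1, hx1, x2, hx2, hne⟩ := Finset.one_lt_card.1 hcard'
    have key : ∀ x z, x ∈ hvc K X x0 y0 r B c α → (Kd K x0 y0).Adj x z → c s(x, z) = α →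
        z = y0 := by
      intro x z hx hxz hcz
      by_contra hz
      obtain ⟨c', h1, h2, h3⟩ := hBL4 V K X D p x0 y0 r B c α hB hG hb x z hx hxz hcz hz
      have h4 := hmm c' α h1 (h2.trans hy)
      rw [hm] at h3
      omega
    have h1 := hx1
    have h2 := hx2
    unfold hvc at h1 h2
    rw [Finset.mem_filter] at h1 h2
    obtain ⟨z1, hz1, hz1'⟩ := h1.2.1
    obtain ⟨z2, hz2, hz2'⟩ := h2.2.1
    have e1 := key x1 z1 hx1 hz1 hz1'
    have e2 := key x2 z2 hx2 hz2 hz2'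
    rw [e1] at hz1 hz1'
    rw [e2] at hz2 hz2'
    refine hne (hb.pec.2 y0 x1 x2 hz1.symm hz2.symm ?_)
    rw [Sym2.eq_swap, hz1', Sym2.eq_swap, hz2']
  · intro γ hγ v w hv hw hvw hc _ _
    by_contra hcon
    rw [not_or] at hcon
    have hγD : γ < D := by
      unfold Gam at hγ
      rw [Finset.mem_filter, Finset.mem_range] at hγ
      exact hγ.1
    have hγα : γ ≠ α := by
      rintro rfl
      exact (hBL3 V K X D p x0 y0 r B c γ hB hG hb).1 hγ
    obtain ⟨h1, h2⟩ := BL5_upd K X D p x0 y0 c α γ hb v w hv hw hvw hc hγD hγα hcon.1 hcon.2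
    have h3 := hnm _ _ h1
    omega

end

end Pool.Agent.OF
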