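import Pool.Agent.helper86.OF.SpecB

set_option autoImplicit false

/-! Module `CNA` of project of (MP_c62920_co). -/

open scoped BigOperators

namespace Pool.Agent.OF

noncomputable section

open Classical

theorem CNA_adj1 {V : Type} [Fintype V] (G : SimpleGraph V) (X : Finset V) (D : ℕ) (v w : V) :
    (tokG G X D).Adj (Sum.inl v) (Sum.inl w) ↔ (outG G X).Adj v w := by
  unfold tokG
  rw [SimpleGraph.fromRel_adj]
  constructor
  · rintro ⟨-, h | h⟩
    · exact h
    · exact SimpleGraph.Adj.symm h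
  · intro h
    refine ⟨?_, Or.inl h⟩
    intro h'
    have h2 : v = w := Sum.inl_injective h'
    subst h2
    exact (outG G X).loopless.irrefl v h

theorem CNA_adj2 {V : Type} [Fintype V] (G : SimpleGraph V) (X : Finset V) (D : ℕ) (v w : V)
    (j : Fin D) :
    (tokG G X D).Adj (Sum.inr (w, j)) (Sum.inl v) ↔ v = w ∧ v ∈ X ∧ (j : ℕ) + dg G v < D := by
  unfold tokG
  rw [SimpleGraph.fromRel_adj]
  constructor
  · rintro ⟨-, h | h⟩
    · exact h.elim
    · exact h
  · intro h
    exact ⟨Sum.inr_ne_inl, Or.inr h⟩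

theorem CNA_tok {V : Type} [Fintype V] (G : SimpleGraph V) (X : Finset V) (D : ℕ) (w : V)
    (hw : w ∈ X) : D - dg G w ≤ (Finset.univ.filter fun t : V × Fin D =>
      (tokG G X D).Adj (Sum.inr t) (Sum.inl w)).card := by
  have h1 : (Finset.univ : Finset (Fin (D - dg G w))).card = D - dg G w := by
    rw [Finset.card_univ, Fintype.card_fin]
  rw [← h1]
  refine Finset.card_le_card_of_injOn
    (fun j => (w, ⟨(j : ℕ), by have := j.2; omega⟩)) ?_ ?_
  · intro j _
    rw [Finset.mem_coe, Finset.mem_filter]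
    refine ⟨Finset.mem_univ _, (CNA_adj2 G X D w w _).2 ⟨rfl, hw, ?_⟩⟩
    have := j.2
    show (j : ℕ) + dg G w < D
    omega
  · intro j _ j' _ h
    have h2 := congrArg (fun t : V × Fin D => (t.2 : ℕ)) h
    exact Fin.ext h2

/-- symmetry of the number of edges -/
theorem CNA_symm {V : Type} [Fintype V] (G : SimpleGraph V) (S T : Finset V) :
    ep G S T = ep G T S := by
  unfold ep dgs
  simp only [Finset.card_filter]
  rw [Finset.sum_comm]
  refine Finset.sum_congr rfl fun v _ => Finset.sum_congr rfl fun w _ => ?_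
  simp only [G.adj_comm]

theorem CNA_deg {V : Type} [Fintype V] (G : SimpleGraph V) (W : Finset V) (v : V) :
    dg G v = dgs G W v + dgs G Wᶜ v := by
  unfold dg dgs
  rw [← Finset.card_union_of_disjoint]
  · rw [← Finset.filter_union, Finset.union_compl]
  · exact Finset.disjoint_filter_filter disjoint_compl_right

/-- the edges between the complement of `W` and `W` in the graph with tokens -/
theorem CNA_ep {V : Type} [Fintype V] (G : SimpleGraph V) (X W : Finset V) (D : ℕ) (hXW : X ⊆ W) :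
    ep G Wᶜ W + ∑ x ∈ X, (D - dg G x) ≤
      ep (tokG G X D) (W.map Function.Embedding.inl)ᶜ (W.map Function.Embedding.inl) := by
  have hd : ∀ z, dgs (tokG G X D) (W.map Function.Embedding.inl) z =
      (W.filter fun w => (tokG G X D).Adj z (Sum.inl w)).card := by
    intro z
    unfold dgs
    rw [Finset.filter_map, Finset.card_map]
    rfl
  have hc : (W.map (Function.Embedding.inl : V ↪ PT V D))ᶜ =
      Wᶜ.disjSum (Finset.univ : Finset (V × Fin D)) := by
    ext z
    rw [Finset.mem_compl, Finset.mem_disjSum]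
    constructor
    · intro h
      rcases z with v | t
      · refine Or.inl ⟨v, ?_, rfl⟩
        rw [Finset.mem_compl]
        intro hv
        exact h (Finset.mem_map.2 ⟨v, hv, rfl⟩)
      · exact Or.inr ⟨t, Finset.mem_univ _, rfl⟩
    · rintro (⟨v, hv, rfl⟩ | ⟨t, -, rfl⟩) h
      · obtain ⟨w, hw, hwe⟩ := Finset.mem_map.1 h
        have : w = v := Sum.inl_injective hwe
        subst this
        exact (Finset.mem_compl.1 hv) hw
      · obtain ⟨w, hw, hwe⟩ := Finset.mem_map.1 h
        exact Sum.inl_ne_inr hwe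
  unfold ep
  rw [hc, Finset.sum_disjSum]
  refine add_le_add (Finset.sum_le_sum fun v hv => ?_) ?_
  · rw [hd]
    unfold dgs
    refine Finset.card_le_card ?_
    intro w hw
    rw [Finset.mem_filter] at hw ⊢
    refine ⟨hw.1, (CNA_adj1 G X D v w).2 ⟨hw.2, fun h => ?_⟩⟩
    exact (Finset.mem_compl.1 hv) (hXW h.1)
  · have e1 : ∑ t : V × Fin D, dgs (tokG G X D) (W.map Function.Embedding.inl) (Sum.inr t) =
        ∑ w ∈ W, (Finset.univ.filter fun t : V × Fin D =>
          (tokG G X D).Adj (Sum.inr t) (Sum.inl w)).card := by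
      simp only [hd, Finset.card_filter]
      rw [Finset.sum_comm]
    rw [e1]
    refine (Finset.sum_le_sum fun w hw => CNA_tok G X D w hw).trans ?_
    exact Finset.sum_le_sum_of_subset hXW

theorem CNA (hTKD : TKD_stmt) : CNA_stmt := by
  intro V _ G D X hdeg Q hdis hodd hsum
  obtain ⟨-, t2, t3, -⟩ := hTKD V G D X hdeg
  have hno : ∀ t : V × Fin D, Sum.inr t ∉ Q := by
    intro t ht
    have h1 := Finset.single_le_sum (f := fun z => D - dg (tokG G X D) z)
      (fun z _ => Nat.zero_le _) ht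
    have h2 := t3 t
    have h3 : D - dg (tokG G X D) (Sum.inr t) ≤ ∑ z ∈ Q, (D - dg (tokG G X D) z) := h1
    omega
  set QV : Finset V := Finset.univ.filter fun v => (Sum.inl v : PT V D) ∈ Q with hQV
  have hQ : Q = QV.map Function.Embedding.inl := by
    ext z
    rw [Finset.mem_map]
    constructor
    · intro hz
      rcases z with v | t
      · exact ⟨v, Finset.mem_filter.2 ⟨Finset.mem_univ _, hz⟩, rfl⟩
      · exact absurd hz (hno t)
    · rintro ⟨v, hv, rfl⟩
      exact (Finset.mem_filter.1 hv).2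
  have hdisj : Disjoint X QV := by
    rw [Finset.disjoint_left]
    intro v hv hv'
    refine Finset.disjoint_left.1 hdis (Finset.mem_filter.1 hv').2 ?_
    exact Finset.mem_map.2 ⟨v, hv, rfl⟩
  have hA : XT X D ∪ Q = (X ∪ QV).map Function.Embedding.inl := by
    rw [hQ, Finset.map_union]
    rfl
  have hcard : (X ∪ QV).card = Q.card + X.card := by
    rw [Finset.card_union_of_disjoint hdisj, hQ, Finset.card_map, add_comm]
  refine ⟨X ∪ QV, by rw [hcard]; exact hodd, ?_⟩
  have h1 := CNA_ep G X (X ∪ QV) D Finset.subset_union_left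
  rw [hA] at hsum
  have h2 : ∑ z ∈ Q, (D - dg (tokG G X D) z) = ∑ v ∈ QV, (D - dg G v) := by
    rw [hQ, Finset.sum_map]
    refine Finset.sum_congr rfl fun v hv => ?_
    have hvX : v ∉ X := fun h => Finset.disjoint_left.1 hdisj h hv
    rw [← t2 v hvX]
    rfl
  rw [h2] at hsum
  have h3 : ∑ v ∈ X ∪ QV, (D - dg G v) = ∑ v ∈ X, (D - dg G v) + ∑ v ∈ QV, (D - dg G v) :=
    Finset.sum_union hdisj
  have h4 : ∑ v ∈ X ∪ QV, (D - dg G v) + ∑ v ∈ X ∪ QV, dg G v = D * (X ∪ QV).card := by
    rw [← Finset.sum_add_distrib, Finset.sum_congr rfl fun v _ => Nat.sub_add_cancel (hdeg v),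
      Finset.sum_const, smul_eq_mul, mul_comm]
  have h5 : ∑ v ∈ X ∪ QV, dg G v = ep G (X ∪ QV) (X ∪ QV) + ep G (X ∪ QV) (X ∪ QV)ᶜ := by
    unfold ep
    rw [← Finset.sum_add_distrib]
    exact Finset.sum_congr rfl fun v _ => CNA_deg G (X ∪ QV) v
  rw [CNA_symm G (X ∪ QV) (X ∪ QV)ᶜ] at h5
  have h6 : 1 ≤ (X ∪ QV).card := by
    rcases Nat.eq_zero_or_pos (X ∪ QV).card with h | h
    · rw [hcard] at h
      rw [h] at hodd
      omega
    · exact h
  have h7 : D * (X ∪ QV).card = D * ((X ∪ QV).card - 1) + D := by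
    obtain ⟨k, hk⟩ := Nat.exists_eq_add_of_le h6
    rw [hk, Nat.add_sub_cancel_left, Nat.mul_add, Nat.mul_one, add_comm]
  omega

end

end Pool.Agent.OF
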