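import Pool.Agent.helper86.OF.SpecX

/-!
# KSB: one colour of the first phase (MP_c62920_co)
-/

open scoped BigOperators

namespace Pool.Agent.OF

noncomputable section

open Classical

/-- The invariant of the process. -/
structure KSB_inv {V : Type} [Fintype V] (X S : Finset V) (C : SimpleGraph V) (m : V → V) (ε : ℝ)
    (μ : V → V) (T : Finset V) : Prop where
  chg : Chg C m μ T
  cvd : ∀ x ∈ X, m x ≠ x → μ x ≠ x
  siz : T.card + 3 * (X.filter fun x => μ x = x).card ≤ 3 * (X.filter fun x => m x = x).card
  tin : ∀ v ∈ T, (v ∈ X ∧ m v = v) ∨ v ∉ S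
  xcd : dns m X ε → xch m μ X + 3 * (X.filter fun x => μ x = x).card ≤
    3 * (X.filter fun x => m x = x).card
  xcn : ¬ dns m X ε → xch m μ X +
      3 * (X.filter fun x => μ x = x ∧ ε * Fintype.card V ≤ dgs C Xᶜ x).card ≤
    3 * (X.filter fun x => m x = x ∧ ε * Fintype.card V ≤ dgs C Xᶜ x).card

theorem KSB_card1 {V : Type} [Fintype V] (X : Finset V) (μ μ' : V → V) (P : V → Prop) (u : V)
    (hu : u ∈ X) (hμ : μ u = u) (hPu : P u) (hμ' : μ' u ≠ u) (hc : ∀ x ∈ X, μ x ≠ x → μ' x ≠ x) :
    (X.filter fun x => μ' x = x ∧ P x).card + 1 ≤ (X.filter fun x => μ x = x ∧ P x).card := by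
  have hlt : (X.filter fun x => μ' x = x ∧ P x).card < (X.filter fun x => μ x = x ∧ P x).card := by
    apply Finset.card_lt_card
    rw [Finset.ssubset_iff_of_subset]
    · refine ⟨u, ?_, ?_⟩
      · simp only [Finset.mem_filter]
        exact ⟨hu, hμ, hPu⟩
      · simp only [Finset.mem_filter, not_and]
        intro _ h
        exact absurd h hμ'
    · intro x hx
      simp only [Finset.mem_filter] at hx ⊢
      refine ⟨hx.1, ?_, hx.2.2⟩
      by_contra hne
      exact hc x hx.1 hne hx.2.1
  omega

theorem KSB_card0 {V : Type} [Fintype V] (X : Finset V) (μ μ' : V → V) (P : V → Prop)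
    (hc : ∀ x ∈ X, μ x ≠ x → μ' x ≠ x) :
    (X.filter fun x => μ' x = x ∧ P x).card ≤ (X.filter fun x => μ x = x ∧ P x).card := by
  apply Finset.card_le_card
  intro x hx
  simp only [Finset.mem_filter] at hx ⊢
  refine ⟨hx.1, ?_, hx.2.2⟩
  by_contra hne
  exact hc x hx.1 hne hx.2.1

theorem KSB_card1' {V : Type} [Fintype V] (X : Finset V) (μ μ' : V → V) (u : V)
    (hu : u ∈ X) (hμ : μ u = u) (hμ' : μ' u ≠ u) (hc : ∀ x ∈ X, μ x ≠ x → μ' x ≠ x) :
    (X.filter fun x => μ' x = x).card + 1 ≤ (X.filter fun x => μ x = x).card := by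
  have h := KSB_card1 X μ μ' (fun _ => True) u hu hμ trivial hμ' hc
  simpa using h

theorem KSB_card2 {V : Type} [Fintype V] (X : Finset V) (μ μ' : V → V) (u w : V)
    (hu : u ∈ X) (hw : w ∈ X) (huw : u ≠ w) (hμu : μ u = u) (hμw : μ w = w) (hu' : μ' u ≠ u)
    (hw' : μ' w ≠ w) (hc : ∀ x ∈ X, μ x ≠ x → μ' x ≠ x) :
    (X.filter fun x => μ' x = x).card + 2 ≤ (X.filter fun x => μ x = x).card := by
  have h1 : (X.filter fun x => μ' x = x) ⊆ ((X.filter fun x => μ x = x).erase u).erase w := by
    intro x hx
    simp only [Finset.mem_filter, Finset.mem_erase] at hx ⊢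
    refine ⟨?_, ?_, hx.1, ?_⟩
    · rintro rfl; exact hw' hx.2
    · rintro rfl; exact hu' hx.2
    · by_contra hne
      exact hc x hx.1 hne hx.2
  have h2 := Finset.card_le_card h1
  have hmu : u ∈ X.filter fun x => μ x = x := by
    simp only [Finset.mem_filter]; exact ⟨hu, hμu⟩
  have hmw : w ∈ (X.filter fun x => μ x = x).erase u := by
    simp only [Finset.mem_filter, Finset.mem_erase]; exact ⟨huw.symm, hw, hμw⟩
  have h3 := Finset.card_erase_add_one hmw
  have h4 := Finset.card_erase_add_one hmu
  omega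

theorem KSB_main (h1 : KB1_stmt) (h2 : KB2_stmt) (h3 : KB3_stmt) (V : Type) [Fintype V]
    (A X S S2 : Finset V) (C : SimpleGraph V) (m : V → V) (ε : ℝ)
    (hK : KCtx A X Finset.univ C m S ε)
    (hf : ((X.filter fun x => m x = x).card : ℝ) ≤ ε / 1000 * Fintype.card V)
    (hN : 1000 ≤ ε * Fintype.card V) (hU : (8 * S2.card + 4) * Fintype.card V < ep C X Xᶜ) :
    ∀ (n : ℕ) (μ : V → V) (T : Finset V), KSB_inv X S C m ε μ T →
      (X.filter fun x => μ x = x).card = n →
    ∃ (μ : V → V) (T T2 : Finset V), Chg C m μ T ∧ (∀ x ∈ X, μ x ≠ x) ∧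
      T.card ≤ 8 * (X.filter fun x => m x = x).card + 20 ∧ T2.card ≤ 4 ∧ Disjoint T2 S2 ∧
      (∀ v ∈ T, (v ∈ X ∧ m v = v) ∨ v ∉ S ∨ v ∈ T2) ∧
      xch m μ X ≤ 20 + 10 * (if dns m X ε then (X.filter fun x => m x = x).card else
        (X.filter fun x => m x = x ∧ ε * Fintype.card V ≤ dgs C Xᶜ x).card) := by
  intro n
  induction n using Nat.strong_induction_on with
  | _ n ih =>
  intro μ T hI hn
  -- the bound on `T`
  have hTf : (T.card : ℝ) ≤ 3 * (ε / 1000 * Fintype.card V) := by
    have h := hI.siz
    have h' : T.card ≤ 3 * (X.filter fun x => m x = x).card := by omega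
    have h'' : (T.card : ℝ) ≤ 3 * ((X.filter fun x => m x = x).card : ℝ) := by exact_mod_cast h'
    linarith
  by_cases hex : ∃ u ∈ X, μ u = u ∧ ¬ stk C m X S ε u
  · obtain ⟨u, huX, hμu, hst⟩ := hex
    have hT1 : (T.card : ℝ) ≤ ε / 4 * Fintype.card V := by nlinarith
    obtain ⟨hhv, μ', T', hchg, hTT', hTc, hcv, hμ'u, hS, hx⟩ :=
      h1 V A X Finset.univ S T C m μ ε hK hI.chg hT1 u huX hμu hst
    have hcard := KSB_card1' X μ μ' u huX hμu hμ'u hcv
    have hmu : m u = u := by
      by_contra hne
      exact hI.cvd u huX hne hμu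
    refine ih _ ?_ μ' T' ?_ rfl
    · omega
    · refine ⟨hchg, ?_, ?_, ?_, ?_, ?_⟩
      · intro x hxX hmx
        exact hcv x hxX (hI.cvd x hxX hmx)
      · have := hI.siz
        omega
      · intro v hv
        rcases hS v hv with h | h | h
        · exact hI.tin v h
        · subst h; exact Or.inl ⟨huX, hmu⟩
        · exact Or.inr h
      · intro hd
        have := hI.xcd hd
        omega
      · intro hd
        have := hI.xcn hd
        have hh : ε * Fintype.card V ≤ dgs C Xᶜ u := by
          rcases hhv with h | h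
          · exact h
          · exact absurd h hd
        have hc1 := KSB_card1 X μ μ' (fun x => ε * Fintype.card V ≤ dgs C Xᶜ x) u huX hμu hh
          hμ'u hcv
        omega
  · push Not at hex
    by_cases h0 : ∃ u ∈ X, μ u = u
    · obtain ⟨u, huX, hμu⟩ := h0
      have hsu := hex u huX hμu
      have hmu : m u = u := by
        by_contra hne
        exact hI.cvd u huX hne hμu
      by_cases h00 : ∃ w ∈ X, w ≠ u ∧ μ w = w
      · obtain ⟨w, hwX, hwu, hμw⟩ := h00
        have hsw := hex w hwX hμw
        have hmw : m w = w := by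
          by_contra hne
          exact hI.cvd w hwX hne hμw
        have hT1 : (T.card : ℝ) + 10 ≤ ε / 4 * Fintype.card V := by nlinarith
        obtain ⟨μ', T', hchg, hTT', hTc, hcv, hμ'u, hμ'w, hS, hx, hxd⟩ :=
          h2 V A X Finset.univ S T C m μ ε hK hI.chg hT1 u huX w hwX hwu.symm hμu hμw hsu hsw
        have hcard := KSB_card2 X μ μ' u w huX hwX hwu.symm hμu hμw hμ'u hμ'w hcv
        refine ih _ ?_ μ' T' ?_ rfl
        · omega
        · refine ⟨hchg, ?_, ?_, ?_, ?_, ?_⟩
          · intro x hxX hmx
            exact hcv x hxX (hI.cvd x hxX hmx)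
          · have := hI.siz
            omega
          · intro v hv
            rcases hS v hv with h | h | h | h
            · exact hI.tin v h
            · subst h; exact Or.inl ⟨huX, hmu⟩
            · subst h; exact Or.inl ⟨hwX, hmw⟩
            · exact Or.inr h
          · intro hd
            have := hI.xcd hd
            omega
          · intro hd
            have h5 := hI.xcn hd
            have h6 := hxd hd
            have hc0 := KSB_card0 X μ μ' (fun x => ε * Fintype.card V ≤ dgs C Xᶜ x) hcv
            omega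
      · push Not at h00
        have hT1 : (T.card : ℝ) + 40 ≤ ε / 4 * Fintype.card V := by nlinarith
        obtain ⟨μ', T', T2, hchg, hTT', hTc, hcv, hT2, hdis, hS, hx⟩ :=
          h3 V A X Finset.univ S S2 T C m μ ε hK hI.chg hT1 hU u huX hμu
            (fun x hx hxu => h00 x hx hxu) hsu
        refine ⟨μ', T', T2, hchg, hcv, ?_, hT2, hdis, ?_, ?_⟩
        · have := hI.siz
          omega
        · intro v hv
          rcases hS v hv with h | h | h | h
          · rcases hI.tin v h with h' | h'
            · exact Or.inl h'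
            · exact Or.inr (Or.inl h')
          · subst h; exact Or.inl ⟨huX, hmu⟩
          · exact Or.inr (Or.inl h)
          · exact Or.inr (Or.inr h)
        · split_ifs with hd
          · have := hI.xcd hd
            omega
          · have := hI.xcn hd
            omega
    · push Not at h0
      refine ⟨μ, T, ∅, hI.chg, h0, ?_, by simp, Finset.disjoint_empty_left _, ?_, ?_⟩
      · have := hI.siz
        omega
      · intro v hv
        rcases hI.tin v hv with h' | h'
        · exact Or.inl h'
        · exact Or.inr (Or.inl h')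
      · split_ifs with hd
        · have := hI.xcd hd
          omega
        · have := hI.xcn hd
          omega

theorem KSB (h1 : KB1_stmt) (h2 : KB2_stmt) (h3 : KB3_stmt) : KSB_stmt := by
  intro V _ A X S S2 C m ε hK hf hN hU
  refine KSB_main h1 h2 h3 V A X S S2 C m ε hK hf hN hU _ m ∅ ?_ rfl
  refine ⟨⟨hK.inv, fun v _ => rfl, fun v hv => absurd hv (Finset.notMem_empty v),
    fun v _ => Or.inr rfl⟩, fun x _ h => h, ?_, fun v hv => absurd hv (Finset.notMem_empty v),
    ?_, ?_⟩
  · simp
  · intro _
    have : xch m m X = 0 := by simp [xch]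
    omega
  · intro _
    have : xch m m X = 0 := by simp [xch]
    omega

end

end Pool.Agent.OF
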