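import Pool.Agent.helper86.OF.SpecX

/-!
# PAB: the partition (MP_c62920_co)
-/

open scoped BigOperators

namespace Pool.Agent.OF

noncomputable section

open Classical

/-! ## The pairing -/

theorem PAB_pair {V : Type} (f : V → ℝ) : ∀ (n : ℕ) (P : Finset V), P.card = n →
    (∀ v ∈ P, 0 ≤ f v) →
    ∃ (p : V → V) (sg : V → ℝ), (∀ v ∈ P, p v ∈ P ∧ (sg v = 1 ∨ sg v = -1)) ∧
      (∀ j, (P.filter fun v => p v = j).card ≤ 2) ∧
      ∀ e : V → ℝ, (∀ v, e v = 1 ∨ e v = -1) → |∑ v ∈ P, sg v * e (p v)| ≤ 1 ∧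
        ∀ B : ℝ, 0 ≤ B → (∀ v ∈ P, f v ≤ B) → |∑ v ∈ P, sg v * e (p v) * f v| ≤ B := by
  intro n
  induction n using Nat.strong_induction_on with
  | _ n ih =>
  intro P hP h0
  rcases Nat.lt_or_ge n 2 with hn | hn
  · rcases Nat.eq_zero_or_pos n with hz | hpos
    · have hP0 : P = ∅ := by
        rw [← Finset.card_eq_zero]; omega
      subst hP0
      refine ⟨id, fun _ => 1, by simp, by simp, fun e he => ⟨by simp, fun B hB _ => ?_⟩⟩
      simpa using hB
    · have hP1 : P.card = 1 := by omega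
      obtain ⟨u, hu⟩ := Finset.card_eq_one.mp hP1
      subst hu
      refine ⟨fun _ => u, fun _ => 1, by simp, ?_, fun e he => ⟨?_, fun B hB hf => ?_⟩⟩
      · intro j
        refine le_trans (Finset.card_filter_le _ _) ?_
        simp
      · rcases he u with h | h <;> simp [h]
      · have h1 := hf u (Finset.mem_singleton_self u)
        have h2 := h0 u (Finset.mem_singleton_self u)
        rcases he u with h | h <;> simp [h, abs_of_nonneg h2, h1]
  · have hne : P.Nonempty := by
      rw [← Finset.card_pos]; omega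
    obtain ⟨u, huP, hu⟩ := Finset.exists_max_image P f hne
    have hne1 : (P.erase u).Nonempty := by
      rw [← Finset.card_pos, Finset.card_erase_of_mem huP]; omega
    obtain ⟨w, hwP, hw⟩ := Finset.exists_max_image (P.erase u) f hne1
    have hc : ((P.erase u).erase w).card = n - 2 := by
      rw [Finset.card_erase_of_mem hwP, Finset.card_erase_of_mem huP]; omega
    have hsub : ∀ v ∈ (P.erase u).erase w, v ∈ P ∧ v ≠ u ∧ v ≠ w := by
      intro v hv
      simp only [Finset.mem_erase] at hv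
      exact ⟨hv.2.2, hv.2.1, hv.1⟩
    obtain ⟨p, sg, hp, hfib, hs⟩ := ih (n - 2) (by omega) ((P.erase u).erase w) hc
      (fun v hv => h0 v (hsub v hv).1)
    have hwu : w ≠ u := (Finset.mem_erase.mp hwP).1
    have hwP' : w ∈ P := (Finset.mem_erase.mp hwP).2
    have hP2 : P = insert u (insert w ((P.erase u).erase w)) := by
      rw [Finset.insert_erase hwP, Finset.insert_erase huP]
    have hu2 : u ∉ insert w ((P.erase u).erase w) := by
      simp [hwu.symm]
    have hw2 : w ∉ (P.erase u).erase w := by simp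
    generalize hQ : (P.erase u).erase w = Q at *
    refine ⟨fun v => if v = u ∨ v = w then u else p v,
      fun v => if v = u then 1 else if v = w then -1 else sg v, ?_, ?_, ?_⟩
    · intro v hv
      by_cases hvu : v = u
      · subst hvu; simp [huP]
      · by_cases hvw : v = w
        · subst hvw; simp [huP, hvu]
        · have hvQ : v ∈ Q := by
            rw [← hQ]; simp [hvu, hvw, hv]
          have := hp v hvQ
          simp only [hvu, hvw, or_self, if_false]
          exact ⟨(hsub _ this.1).1, this.2⟩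
    · intro j
      by_cases hj : j = u
      · subst hj
        have : (P.filter fun v => (if v = j ∨ v = w then j else p v) = j) ⊆ {j, w} := by
          intro v hv
          simp only [Finset.mem_filter] at hv
          by_cases hvj : v = j
          · simp [hvj]
          · by_cases hvw : v = w
            · simp [hvw]
            · exfalso
              have hvQ : v ∈ Q := by
                rw [← hQ]; simp [hvj, hvw, hv.1]
              have h1 := hv.2
              simp only [hvj, hvw, or_self, if_false] at h1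
              have h2 := (hsub _ (hp v hvQ).1).2.1
              exact h2 h1
        refine le_trans (Finset.card_le_card this) ?_
        exact Finset.card_le_two
      · refine le_trans (Finset.card_le_card ?_) (hfib j)
        intro v hv
        simp only [Finset.mem_filter] at hv ⊢
        by_cases hvu : v = u ∨ v = w
        · exfalso
          have h1 := hv.2
          rw [if_pos hvu] at h1
          exact hj h1.symm
        · have h1 := hv.2
          rw [if_neg hvu] at h1
          push Not at hvu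
          refine ⟨?_, h1⟩
          rw [← hQ]; simp [hvu.1, hvu.2, hv.1]
    · intro e he
      obtain ⟨hs1, hs2⟩ := hs e he
      have hcong : ∀ g : V → ℝ, ∑ v ∈ Q, (if v = u then (1 : ℝ) else if v = w then -1 else sg v) *
          e (if v = u ∨ v = w then u else p v) * g v = ∑ v ∈ Q, sg v * e (p v) * g v := by
        intro g
        apply Finset.sum_congr rfl
        intro v hv
        have := hsub v hv
        simp only [this.2.1, this.2.2, or_self, if_false]
      have hsum : ∀ g : V → ℝ, ∑ v ∈ P, (if v = u then (1 : ℝ) else if v = w then -1 else sg v) *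
          e (if v = u ∨ v = w then u else p v) * g v =
          e u * (g u - g w) + ∑ v ∈ Q, sg v * e (p v) * g v := by
        intro g
        rw [hP2, Finset.sum_insert hu2, Finset.sum_insert hw2, hcong]
        simp only [hwu, true_or, or_true, if_true, if_false]
        ring
      constructor
      · have h1 := hsum (fun _ => 1)
        simp only [mul_one, sub_self, mul_zero, zero_add] at h1
        rw [h1]
        exact hs1
      · intro B hB hfB
        rw [hsum f]
        have h2 := hs2 (f w) (h0 w hwP') (fun v hv => hw v (by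
          rw [Finset.mem_erase]; exact ⟨(hsub v hv).2.1, (hsub v hv).1⟩))
        have h3 := hfB u huP
        have h4 := hu w hwP'
        have h5 : |e u * (f u - f w)| ≤ f u - f w := by
          rcases he u with h | h
          · rw [h, one_mul, abs_of_nonneg (by linarith)]
          · rw [h, neg_one_mul, abs_neg, abs_of_nonneg (by linarith)]
        refine le_trans (abs_add_le _ _) ?_
        linarith

/-! ## Signs -/

/-- The sign of a bit. -/
def PAB_e {V : Type} (σ : V → Bool) (j : V) : ℝ := if σ j then 1 else -1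

theorem PAB_e_or {V : Type} (σ : V → Bool) (j : V) : PAB_e σ j = 1 ∨ PAB_e σ j = -1 := by
  unfold PAB_e
  split_ifs
  · exact Or.inl rfl
  · exact Or.inr rfl

/-- Changing one bit. -/
def PAB_flip {V : Type} (a : V) (σ : V → Bool) : V → Bool := Function.update σ a (!σ a)

theorem PAB_flip_inv {V : Type} (a : V) : Function.Involutive (PAB_flip a) := by
  intro σ
  unfold PAB_flip
  funext v
  by_cases h : v = a
  · subst h; simp
  · simp [Function.update_of_ne h]

theorem PAB_e_flip {V : Type} (a : V) (σ : V → Bool) : PAB_e (PAB_flip a σ) a = - PAB_e σ a := by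
  unfold PAB_e PAB_flip
  cases σ a <;> simp

theorem PAB_e_flip_ne {V : Type} (a b : V) (hab : b ≠ a) (σ : V → Bool) :
    PAB_e (PAB_flip a σ) b = PAB_e σ b := by
  unfold PAB_e PAB_flip
  rw [Function.update_of_ne hab]

theorem PAB_zero {V : Type} [Fintype V] (a : V) (h : (V → Bool) → ℝ)
    (hh : ∀ σ, h (PAB_flip a σ) = - h σ) : ∑ σ : V → Bool, h σ = 0 := by
  have h1 : ∑ σ : V → Bool, h (Function.Involutive.toPerm (PAB_flip a) (PAB_flip_inv a) σ) =
      ∑ σ : V → Bool, h σ :=
    Equiv.sum_comp (Function.Involutive.toPerm (PAB_flip a) (PAB_flip_inv a)) h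
  have h2 : ∑ σ : V → Bool, h (Function.Involutive.toPerm (PAB_flip a) (PAB_flip_inv a) σ) =
      - ∑ σ : V → Bool, h σ := by
    rw [← Finset.sum_neg_distrib]
    apply Finset.sum_congr rfl
    intro σ _
    exact hh σ
  linarith

theorem PAB_orth {V : Type} [Fintype V] (a b c d : V) (hab : a ≠ b) (had : a ≠ d) (hcb : c ≠ b)
    (h : ¬ (c = a ∧ d = b)) :
    ∑ σ : V → Bool, PAB_e σ a * PAB_e σ b * (PAB_e σ c * PAB_e σ d) = 0 := by
  by_cases hac : c = a
  · have hbd : d ≠ b := fun h' => h ⟨hac, h'⟩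
    apply PAB_zero b
    intro σ
    rw [PAB_e_flip, PAB_e_flip_ne b a hab, PAB_e_flip_ne b c hcb, PAB_e_flip_ne b d hbd]
    ring
  · apply PAB_zero a
    intro σ
    rw [PAB_e_flip, PAB_e_flip_ne a b hab.symm, PAB_e_flip_ne a c hac,
      PAB_e_flip_ne a d had.symm]
    ring

theorem PAB_mom {V : Type} [Fintype V] (X : Finset V) (W : Finset (V × V))
    (hW : ∀ e ∈ W, e.1 ∈ X ∧ e.2 ∉ X) (p : V → V) (sg : V → ℝ) (hp : ∀ v, p v ∈ X ↔ v ∈ X)
    (hsg : ∀ v, sg v = 1 ∨ sg v = -1)
    (hf : ∀ j, (Finset.univ.filter fun v => p v = j).card ≤ 2) :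
    ∑ σ : V → Bool, (∑ e ∈ W, sg e.1 * PAB_e σ (p e.1) * (sg e.2 * PAB_e σ (p e.2))) ^ 2 ≤
      4 * W.card * 2 ^ Fintype.card V := by
  have hexp : ∀ σ : V → Bool,
      (∑ e ∈ W, sg e.1 * PAB_e σ (p e.1) * (sg e.2 * PAB_e σ (p e.2))) ^ 2 =
      ∑ e ∈ W, ∑ e' ∈ W, (sg e.1 * sg e.2 * (sg e'.1 * sg e'.2)) *
        (PAB_e σ (p e.1) * PAB_e σ (p e.2) * (PAB_e σ (p e'.1) * PAB_e σ (p e'.2))) := by
    intro σ
    rw [sq, Finset.sum_mul_sum]
    apply Finset.sum_congr rfl
    intro e _
    apply Finset.sum_congr rfl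
    intro e' _
    ring
  have h1 : ∑ σ : V → Bool,
      (∑ e ∈ W, sg e.1 * PAB_e σ (p e.1) * (sg e.2 * PAB_e σ (p e.2))) ^ 2 =
      ∑ e ∈ W, ∑ e' ∈ W, (sg e.1 * sg e.2 * (sg e'.1 * sg e'.2)) *
        ∑ σ : V → Bool,
        (PAB_e σ (p e.1) * PAB_e σ (p e.2) * (PAB_e σ (p e'.1) * PAB_e σ (p e'.2))) := by
    rw [Finset.sum_congr rfl (fun σ _ => hexp σ), Finset.sum_comm]
    apply Finset.sum_congr rfl
    intro e _
    rw [Finset.sum_comm]
    apply Finset.sum_congr rfl
    intro e' _
    rw [Finset.mul_sum]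
  rw [h1]
  have hN : (0 : ℝ) ≤ 2 ^ Fintype.card V := by positivity
  have h2 : ∀ e ∈ W, ∑ e' ∈ W, (sg e.1 * sg e.2 * (sg e'.1 * sg e'.2)) *
        ∑ σ : V → Bool,
        (PAB_e σ (p e.1) * PAB_e σ (p e.2) * (PAB_e σ (p e'.1) * PAB_e σ (p e'.2))) ≤
      4 * 2 ^ Fintype.card V := by
    intro e he
    have h3 : ∀ e' ∈ W, (sg e.1 * sg e.2 * (sg e'.1 * sg e'.2)) *
        ∑ σ : V → Bool,
        (PAB_e σ (p e.1) * PAB_e σ (p e.2) * (PAB_e σ (p e'.1) * PAB_e σ (p e'.2))) ≤
        if p e'.1 = p e.1 ∧ p e'.2 = p e.2 then (2 : ℝ) ^ Fintype.card V else 0 := by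
      intro e' he'
      split_ifs with hc
      · refine le_trans (le_abs_self _) ?_
        rw [abs_mul]
        have hs1 : |sg e.1 * sg e.2 * (sg e'.1 * sg e'.2)| = 1 := by
          rcases hsg e.1 with h | h <;> rcases hsg e.2 with h' | h' <;>
            rcases hsg e'.1 with h'' | h'' <;> rcases hsg e'.2 with h''' | h''' <;>
            simp [h, h', h'', h''']
        rw [hs1, one_mul]
        refine le_trans (Finset.abs_sum_le_sum_abs _ _) ?_
        have hs2 : ∀ σ ∈ (Finset.univ : Finset (V → Bool)), |PAB_e σ (p e.1) * PAB_e σ (p e.2) *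
            (PAB_e σ (p e'.1) * PAB_e σ (p e'.2))| ≤ 1 := by
          intro σ _
          rcases PAB_e_or σ (p e.1) with h | h <;> rcases PAB_e_or σ (p e.2) with h' | h' <;>
            rcases PAB_e_or σ (p e'.1) with h'' | h'' <;>
            rcases PAB_e_or σ (p e'.2) with h''' | h''' <;> simp [h, h', h'', h''']
        refine le_trans (Finset.sum_le_card_nsmul _ _ _ hs2) ?_
        simp
      · have hX1 := hW e he
        have hX2 := hW e' he'
        have hp1 : p e.1 ∈ X := (hp _).mpr hX1.1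
        have hp2 : p e.2 ∉ X := fun h => hX1.2 ((hp _).mp h)
        have hp3 : p e'.1 ∈ X := (hp _).mpr hX2.1
        have hp4 : p e'.2 ∉ X := fun h => hX2.2 ((hp _).mp h)
        rw [PAB_orth (p e.1) (p e.2) (p e'.1) (p e'.2) (fun h => hp2 (h ▸ hp1))
          (fun h => hp4 (h ▸ hp1)) (fun h => hp2 (h ▸ hp3)) hc]
        simp
    refine le_trans (Finset.sum_le_sum h3) ?_
    rw [← Finset.sum_filter, Finset.sum_const, nsmul_eq_mul]
    have hcard : (W.filter fun e' => p e'.1 = p e.1 ∧ p e'.2 = p e.2).card ≤ 4 := by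
      have hsub : (W.filter fun e' => p e'.1 = p e.1 ∧ p e'.2 = p e.2) ⊆
          (Finset.univ.filter fun v => p v = p e.1) ×ˢ
            (Finset.univ.filter fun v => p v = p e.2) := by
        intro e' he'
        simp only [Finset.mem_filter] at he'
        simp only [Finset.mem_product, Finset.mem_filter, Finset.mem_univ, true_and]
        exact he'.2
      refine le_trans (Finset.card_le_card hsub) ?_
      rw [Finset.card_product]
      exact Nat.mul_le_mul (hf _) (hf _)
    have hcard' : ((W.filter fun e' => p e'.1 = p e.1 ∧ p e'.2 = p e.2).card : ℝ) ≤ 4 := by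
      exact_mod_cast hcard
    exact mul_le_mul_of_nonneg_right hcard' hN
  refine le_trans (Finset.sum_le_sum h2) ?_
  rw [Finset.sum_const, nsmul_eq_mul]
  apply le_of_eq
  ring

/-! ## Sums -/

theorem PAB_dif {V : Type} [Fintype V] (P : Finset V) (s g : V → ℝ)
    (hs : ∀ v, s v = 1 ∨ s v = -1) :
    ∑ v ∈ P ∩ (Finset.univ.filter fun v => s v = 1), g v -
      ∑ v ∈ P \ (Finset.univ.filter fun v => s v = 1), g v = ∑ v ∈ P, s v * g v := by
  have h1 : P ∩ (Finset.univ.filter fun v => s v = 1) = P.filter fun v => s v = 1 := by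
    ext v; simp
  have h2 : P \ (Finset.univ.filter fun v => s v = 1) = P.filter fun v => ¬ s v = 1 := by
    ext v; simp
  rw [h1, h2, ← Finset.sum_filter_add_sum_filter_not P (fun v => s v = 1) (fun v => s v * g v),
    sub_eq_add_neg, ← Finset.sum_neg_distrib]
  congr 1
  · apply Finset.sum_congr rfl
    intro v hv
    rw [(Finset.mem_filter.mp hv).2, one_mul]
  · apply Finset.sum_congr rfl
    intro v hv
    have h3 := (Finset.mem_filter.mp hv).2
    rcases hs v with h | h
    · exact absurd h h3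
    · rw [h]; ring

theorem PAB_dgs {V : Type} [Fintype V] (G : SimpleGraph V) (S : Finset V) (v : V) :
    (dgs G S v : ℝ) = ∑ w ∈ S, if G.Adj v w then (1 : ℝ) else 0 := by
  unfold dgs
  rw [Finset.sum_boole]

theorem PAB_ep {V : Type} [Fintype V] (G : SimpleGraph V) (S T : Finset V) :
    (ep G S T : ℝ) = ∑ v ∈ S, (dgs G T v : ℝ) := by
  unfold ep
  push_cast
  rfl

theorem PAB_dgs_le {V : Type} [Fintype V] (G : SimpleGraph V) (S : Finset V) (v : V) :
    (dgs G S v : ℝ) ≤ Fintype.card V := by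
  unfold dgs
  exact_mod_cast Finset.card_le_univ _

/-- The number of bad sign vectors for one linear form. -/
theorem PAB_lin (hH : HOE_stmt) {V : Type} [Fintype V] (hN : 1 ≤ Fintype.card V) (η : ℝ)
    (hη : 0 < η) (P : Finset V) (p : V → V) (sg : V → ℝ) (hsg : ∀ v, sg v = 1 ∨ sg v = -1)
    (hf : ∀ j, (Finset.univ.filter fun v => p v = j).card ≤ 2) :
    (((Finset.univ.filter fun σ : V → Bool =>
      η * Fintype.card V < |∑ w ∈ P, sg w * PAB_e σ (p w)|).card : ℕ) : ℝ) ≤
      2 * Real.exp (-(η ^ 2 / 8 * Fintype.card V)) * 2 ^ Fintype.card V := by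
  have hN' : (1 : ℝ) ≤ Fintype.card V := by exact_mod_cast hN
  have hN0 : (0 : ℝ) < Fintype.card V := by linarith
  have h1 := hH V (fun j => ∑ w ∈ P.filter (fun w => p w = j), sg w) (η * Fintype.card V)
    (4 * Fintype.card V) (by positivity) (by positivity) (by
      have : ∀ j ∈ (Finset.univ : Finset V), (∑ w ∈ P.filter (fun w => p w = j), sg w) ^ 2 ≤ 4 := by
        intro j _
        have h2 : |∑ w ∈ P.filter (fun w => p w = j), sg w| ≤ 2 := by
          refine le_trans (Finset.abs_sum_le_sum_abs _ _) ?_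
          have h3 : ∀ w ∈ P.filter (fun w => p w = j), |sg w| ≤ 1 := by
            intro w _
            rcases hsg w with h | h <;> simp [h]
          refine le_trans (Finset.sum_le_card_nsmul _ _ _ h3) ?_
          rw [nsmul_eq_mul, mul_one]
          have h4 : (P.filter (fun w => p w = j)).card ≤ 2 := by
            refine le_trans (Finset.card_le_card ?_) (hf j)
            intro w hw
            simp only [Finset.mem_filter, Finset.mem_univ, true_and] at hw ⊢
            exact hw.2
          exact_mod_cast h4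
        have h5 := abs_le.mp h2
        nlinarith [h5.1, h5.2]
      refine le_trans (Finset.sum_le_card_nsmul _ _ _ this) ?_
      rw [nsmul_eq_mul, Finset.card_univ]
      linarith)
  have h6 : (η * (Fintype.card V : ℝ)) ^ 2 / (2 * (4 * Fintype.card V)) =
      η ^ 2 / 8 * Fintype.card V := by
    field_simp
    ring
  rw [h6] at h1
  refine le_trans (le_of_eq ?_) h1
  congr 2
  ext σ
  simp only [Finset.mem_filter, Finset.mem_univ, true_and]
  have h7 : ∑ w ∈ P, sg w * PAB_e σ (p w) =
      ∑ j, (if σ j then ∑ w ∈ P.filter (fun w => p w = j), sg w else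
        -∑ w ∈ P.filter (fun w => p w = j), sg w) := by
    rw [← Finset.sum_fiberwise P p (fun w => sg w * PAB_e σ (p w))]
    apply Finset.sum_congr rfl
    intro j _
    have h8 : ∑ w ∈ P.filter (fun w => p w = j), sg w * PAB_e σ (p w) =
        ∑ w ∈ P.filter (fun w => p w = j), sg w * PAB_e σ j := by
      apply Finset.sum_congr rfl
      intro w hw
      rw [(Finset.mem_filter.mp hw).2]
    rw [h8, ← Finset.sum_mul]
    unfold PAB_e
    split_ifs <;> ring
  rw [h7]

theorem PAB_exp (η : ℝ) (hη : 0 < η) (N : ℝ) (hN : 8192 / η ^ 4 < N) (hN1 : 1 ≤ N) :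
    N * (2 * (2 * Real.exp (-(η ^ 2 / 8 * N)))) < 1 / 2 := by
  have h1 : 0 < η ^ 2 / 8 * N := by positivity
  have h2 : (η ^ 2 / 8 * N) ^ 2 / 2 < Real.exp (η ^ 2 / 8 * N) := by
    have := Real.quadratic_le_exp_of_nonneg h1.le
    linarith
  rw [Real.exp_neg]
  have h3 : 0 < Real.exp (η ^ 2 / 8 * N) := Real.exp_pos _
  rw [show N * (2 * (2 * (Real.exp (η ^ 2 / 8 * N))⁻¹)) = 4 * N / Real.exp (η ^ 2 / 8 * N) by
    field_simp; ring]
  rw [div_lt_iff₀ h3]
  have h4 : 8192 < N * η ^ 4 := by
    rwa [div_lt_iff₀ (by positivity)] at hN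
  have h5 : (η ^ 2 / 8 * N) ^ 2 / 2 = N * (N * η ^ 4) / 128 := by ring
  rw [h5] at h2
  nlinarith

theorem PAB_choose {V : Type} [Fintype V] (hH : HOE_stmt) (η : ℝ) (hη : 0 < η)
    (G : SimpleGraph V) (X : Finset V) (hN : 8192 / η ^ 4 < Fintype.card V)
    (hN1 : 1 ≤ Fintype.card V) (hU : 400 * (Fintype.card V : ℝ) ≤ ep G X Xᶜ)
    (p : V → V) (sg : V → ℝ) (hp : ∀ v, p v ∈ X ↔ v ∈ X)
    (hsg : ∀ v, sg v = 1 ∨ sg v = -1)
    (hf : ∀ j, (Finset.univ.filter fun v => p v = j).card ≤ 2) :
    ∃ σ : V → Bool, (∀ v, |∑ w ∈ X.filter (fun w => G.Adj v w), sg w * PAB_e σ (p w)| ≤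
        η * Fintype.card V ∧
      |∑ w ∈ Xᶜ.filter (fun w => G.Adj v w), sg w * PAB_e σ (p w)| ≤ η * Fintype.card V) ∧
      |∑ e ∈ (X ×ˢ Xᶜ).filter (fun e => G.Adj e.1 e.2),
        sg e.1 * PAB_e σ (p e.1) * (sg e.2 * PAB_e σ (p e.2))| ≤ (ep G X Xᶜ : ℝ) / 5 := by
  have hN' : (1 : ℝ) ≤ Fintype.card V := by exact_mod_cast hN1
  set U : ℝ := (ep G X Xᶜ : ℝ) with hUdef
  have hU0 : 0 < U := by linarith
  set W : Finset (V × V) := (X ×ˢ Xᶜ).filter (fun e => G.Adj e.1 e.2) with hWdef
  have hWcard : (W.card : ℝ) = U := by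
    rw [hUdef, hWdef, PAB_ep]
    have : ∀ v ∈ X, (dgs G Xᶜ v : ℝ) = ∑ w ∈ Xᶜ, if G.Adj v w then (1 : ℝ) else 0 :=
      fun v _ => PAB_dgs G Xᶜ v
    rw [Finset.sum_congr rfl this, ← Finset.sum_product',
      ← Finset.sum_boole]
  have hWX : ∀ e ∈ W, e.1 ∈ X ∧ e.2 ∉ X := by
    intro e he
    rw [hWdef] at he
    simp only [Finset.mem_filter, Finset.mem_product, Finset.mem_compl] at he
    exact he.1
  -- the bad sets
  set B1 : V → Finset (V → Bool) := fun v => Finset.univ.filter fun σ : V → Bool =>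
      η * Fintype.card V < |∑ w ∈ X.filter (fun w => G.Adj v w), sg w * PAB_e σ (p w)| with hB1
  set B2 : V → Finset (V → Bool) := fun v => Finset.univ.filter fun σ : V → Bool =>
      η * Fintype.card V < |∑ w ∈ Xᶜ.filter (fun w => G.Adj v w), sg w * PAB_e σ (p w)| with hB2
  set B3 : Finset (V → Bool) := Finset.univ.filter fun σ : V → Bool =>
      U / 5 < |∑ e ∈ W, sg e.1 * PAB_e σ (p e.1) * (sg e.2 * PAB_e σ (p e.2))| with hB3
  have hT : (0 : ℝ) < 2 ^ Fintype.card V := by positivity
  set q : ℝ := 2 * Real.exp (-(η ^ 2 / 8 * Fintype.card V)) with hq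
  have hb1 : ∀ v, ((B1 v).card : ℝ) ≤ q * 2 ^ Fintype.card V := fun v =>
    PAB_lin hH hN1 η hη _ p sg hsg hf
  have hb2 : ∀ v, ((B2 v).card : ℝ) ≤ q * 2 ^ Fintype.card V := fun v =>
    PAB_lin hH hN1 η hη _ p sg hsg hf
  have hb3 : (B3.card : ℝ) ≤ 1 / 4 * 2 ^ Fintype.card V := by
    have hm := PAB_mom X W hWX p sg hp hsg hf
    rw [hWcard] at hm
    have h1 : (B3.card : ℝ) * (U / 5) ^ 2 ≤ ∑ σ : V → Bool,
        (∑ e ∈ W, sg e.1 * PAB_e σ (p e.1) * (sg e.2 * PAB_e σ (p e.2))) ^ 2 := by
      have h2 : ∑ σ ∈ B3, (U / 5) ^ 2 ≤ ∑ σ ∈ B3,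
          (∑ e ∈ W, sg e.1 * PAB_e σ (p e.1) * (sg e.2 * PAB_e σ (p e.2))) ^ 2 := by
        apply Finset.sum_le_sum
        intro σ hσ
        rw [hB3] at hσ
        have h3 := (Finset.mem_filter.mp hσ).2
        rw [← sq_abs (∑ e ∈ W, sg e.1 * PAB_e σ (p e.1) * (sg e.2 * PAB_e σ (p e.2)))]
        apply pow_le_pow_left₀ (by positivity) h3.le
      rw [Finset.sum_const, nsmul_eq_mul] at h2
      refine le_trans h2 ?_
      apply Finset.sum_le_sum_of_subset_of_nonneg (Finset.subset_univ _)
      intro σ _ _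
      positivity
    have h4 : (B3.card : ℝ) * (U / 5) ^ 2 ≤ 4 * U * 2 ^ Fintype.card V := le_trans h1 hm
    have h5 : (B3.card : ℝ) * U ≤ 100 * 2 ^ Fintype.card V := by
      have h6 : (B3.card : ℝ) * U * U ≤ 100 * 2 ^ Fintype.card V * U := by nlinarith
      exact le_of_mul_le_mul_right h6 hU0
    have h7 : (400 : ℝ) ≤ U := by linarith
    have h8 : (0 : ℝ) ≤ B3.card := by positivity
    nlinarith
  have hexp := PAB_exp η hη _ hN hN'
  by_contra hcon
  push Not at hcon
  have hcov : (Finset.univ : Finset (V → Bool)) ⊆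
      (Finset.univ.biUnion fun v => B1 v ∪ B2 v) ∪ B3 := by
    intro σ _
    by_cases h : ∀ v, |∑ w ∈ X.filter (fun w => G.Adj v w), sg w * PAB_e σ (p w)| ≤
        η * Fintype.card V ∧
      |∑ w ∈ Xᶜ.filter (fun w => G.Adj v w), sg w * PAB_e σ (p w)| ≤ η * Fintype.card V
    · have := hcon σ h
      rw [Finset.mem_union]
      right
      rw [hB3, Finset.mem_filter]
      exact ⟨Finset.mem_univ _, this⟩
    · rw [Finset.mem_union]
      left
      rw [Finset.mem_biUnion]
      by_contra h'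
      apply h
      intro v
      constructor
      · by_contra h''
        push Not at h''
        exact h' ⟨v, Finset.mem_univ _, Finset.mem_union_left _ (by
          simp only [hB1, Finset.mem_filter, Finset.mem_univ, true_and]; exact h'')⟩
      · by_contra h''
        push Not at h''
        exact h' ⟨v, Finset.mem_univ _, Finset.mem_union_right _ (by
          simp only [hB2, Finset.mem_filter, Finset.mem_univ, true_and]; exact h'')⟩
  have hc1 := Finset.card_le_card hcov
  have hc2 : ((Finset.univ : Finset (V → Bool)).card : ℝ) = 2 ^ Fintype.card V := by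
    rw [Finset.card_univ, Fintype.card_fun, Fintype.card_bool]
    push_cast
    rfl
  have hc3 : ((((Finset.univ : Finset V).biUnion fun v => B1 v ∪ B2 v) ∪ B3).card : ℝ) ≤
      ∑ v : V, (((B1 v).card : ℝ) + (B2 v).card) + B3.card := by
    have h1 : (((Finset.univ : Finset V).biUnion fun v => B1 v ∪ B2 v) ∪ B3).card ≤
        ∑ v : V, ((B1 v).card + (B2 v).card) + B3.card := by
      refine le_trans (Finset.card_union_le _ _) ?_
      apply Nat.add_le_add_right
      refine le_trans Finset.card_biUnion_le ?_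
      apply Finset.sum_le_sum
      intro v _
      exact Finset.card_union_le _ _
    exact_mod_cast h1
  have hc4 : ∑ v : V, (((B1 v).card : ℝ) + (B2 v).card) ≤
      (Fintype.card V : ℝ) * (2 * q * 2 ^ Fintype.card V) := by
    have : ∀ v ∈ (Finset.univ : Finset V), (((B1 v).card : ℝ) + (B2 v).card) ≤
        2 * q * 2 ^ Fintype.card V := by
      intro v _
      have := hb1 v
      have := hb2 v
      linarith
    refine le_trans (Finset.sum_le_card_nsmul _ _ _ this) ?_
    rw [nsmul_eq_mul, Finset.card_univ]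
  have hc5 : (2 : ℝ) ^ Fintype.card V ≤ (Fintype.card V : ℝ) * (2 * q * 2 ^ Fintype.card V) +
      1 / 4 * 2 ^ Fintype.card V := by
    rw [← hc2]
    have h1 : ((Finset.univ : Finset (V → Bool)).card : ℝ) ≤
        ((((Finset.univ : Finset V).biUnion fun v => B1 v ∪ B2 v) ∪ B3).card : ℝ) := by
      exact_mod_cast hc1
    rw [hc2] at h1 ⊢
    linarith
  have hc6 : (Fintype.card V : ℝ) * (2 * q * 2 ^ Fintype.card V) =
      (Fintype.card V : ℝ) * (2 * q) * 2 ^ Fintype.card V := by ring
  rw [hc6] at hc5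
  have hc7 : (Fintype.card V : ℝ) * (2 * q) * 2 ^ Fintype.card V <
      1 / 2 * 2 ^ Fintype.card V := by
    apply mul_lt_mul_of_pos_right _ hT
    rw [hq]
    exact hexp
  linarith

theorem PAB (h : HOE_stmt) : PAB_stmt := by
  intro η hη
  refine ⟨400, ⌈8192 / η ^ 4⌉₊ + 1, by norm_num, ?_⟩
  intro V _ G X hN hU
  have hN1 : 1 ≤ Fintype.card V := by omega
  have hN2 : 8192 / η ^ 4 < Fintype.card V := by
    have h1 : 8192 / η ^ 4 ≤ (⌈8192 / η ^ 4⌉₊ : ℝ) := Nat.le_ceil _
    have h2 : ((⌈8192 / η ^ 4⌉₊ + 1 : ℕ) : ℝ) ≤ Fintype.card V := by exact_mod_cast hN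
    push_cast at h2
    linarith
  obtain ⟨p1, sg1, hp1, hf1, hs1⟩ := PAB_pair (fun v => (dgs G Xᶜ v : ℝ)) _ X rfl
    (fun v _ => by positivity)
  obtain ⟨p2, sg2, hp2, hf2, hs2⟩ := PAB_pair (fun v => (dgs G X v : ℝ)) _ Xᶜ rfl
    (fun v _ => by positivity)
  set p : V → V := fun v => if v ∈ X then p1 v else p2 v with hpdef
  set sg : V → ℝ := fun v => if v ∈ X then sg1 v else sg2 v with hsgdef
  have hpX : ∀ v, p v ∈ X ↔ v ∈ X := by
    intro v
    by_cases hv : v ∈ X
    · simp only [hpdef, hv, if_true, iff_true]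
      exact (hp1 v hv).1
    · simp only [hpdef, hv, if_false, iff_false]
      exact Finset.mem_compl.mp (hp2 v (Finset.mem_compl.mpr hv)).1
  have hsg : ∀ v, sg v = 1 ∨ sg v = -1 := by
    intro v
    by_cases hv : v ∈ X
    · simp only [hsgdef, hv, if_true]
      exact (hp1 v hv).2
    · simp only [hsgdef, hv, if_false]
      exact (hp2 v (Finset.mem_compl.mpr hv)).2
  have hf : ∀ j, (Finset.univ.filter fun v => p v = j).card ≤ 2 := by
    intro j
    by_cases hj : j ∈ X
    · refine le_trans (Finset.card_le_card ?_) (hf1 j)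
      intro v hv
      simp only [Finset.mem_filter, Finset.mem_univ, true_and] at hv ⊢
      have hvX : v ∈ X := (hpX v).mp (hv ▸ hj)
      refine ⟨hvX, ?_⟩
      simpa only [hpdef, hvX, if_true] using hv
    · refine le_trans (Finset.card_le_card ?_) (hf2 j)
      intro v hv
      simp only [Finset.mem_filter, Finset.mem_univ, true_and] at hv ⊢
      have hvX : v ∉ X := fun h' => hj (hv ▸ (hpX v).mpr h')
      refine ⟨Finset.mem_compl.mpr hvX, ?_⟩
      simpa only [hpdef, hvX, if_false] using hv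
  obtain ⟨σ, ha, he⟩ := PAB_choose h η hη G X hN2 hN1 hU p sg hpX hsg hf
  set s : V → ℝ := fun v => sg v * PAB_e σ (p v) with hsdef
  have hs : ∀ v, s v = 1 ∨ s v = -1 := by
    intro v
    simp only [hsdef]
    rcases hsg v with h1 | h1 <;> rcases PAB_e_or σ (p v) with h2 | h2 <;> simp [h1, h2]
  have hsX : ∀ v ∈ X, s v = sg1 v * PAB_e σ (p1 v) := by
    intro v hv
    simp only [hsdef, hsgdef, hpdef, hv, if_true]
  have hsY : ∀ v ∈ Xᶜ, s v = sg2 v * PAB_e σ (p2 v) := by
    intro v hv
    have hv' := Finset.mem_compl.mp hv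
    simp only [hsdef, hsgdef, hpdef, hv', if_false]
  have hs1' := hs1 (PAB_e σ) (PAB_e_or σ)
  have hs2' := hs2 (PAB_e σ) (PAB_e_or σ)
  -- the degrees
  have hdg : ∀ (P : Finset V) (v : V),
      (dgs G (P ∩ (Finset.univ.filter fun v => s v = 1)) v : ℝ) -
        dgs G (P \ (Finset.univ.filter fun v => s v = 1)) v =
      ∑ w ∈ P, s w * (if G.Adj v w then (1 : ℝ) else 0) := by
    intro P v
    rw [PAB_dgs, PAB_dgs]
    exact PAB_dif P s (fun w => if G.Adj v w then (1 : ℝ) else 0) hs
  have hdg' : ∀ (P : Finset V) (v : V),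
      ∑ w ∈ P, s w * (if G.Adj v w then (1 : ℝ) else 0) =
      ∑ w ∈ P.filter (fun w => G.Adj v w), sg w * PAB_e σ (p w) := by
    intro P v
    rw [Finset.sum_filter]
    apply Finset.sum_congr rfl
    intro w _
    split_ifs <;> simp [hsdef]
  have hcd : ∀ P : Finset V,
      ((P ∩ (Finset.univ.filter fun v => s v = 1)).card : ℝ) -
        (P \ (Finset.univ.filter fun v => s v = 1)).card = ∑ w ∈ P, s w := by
    intro P
    have := PAB_dif P s (fun _ => 1) hs
    simpa using this
  refine ⟨Finset.univ.filter fun v => s v = 1, ?_, ?_, ?_, ?_, ?_, ?_⟩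
  · intro v
    rw [hdg, hdg, hdg', hdg']
    exact ha v
  · rw [hcd, Finset.sum_congr rfl hsX]
    exact hs1'.1
  · rw [hcd, Finset.sum_congr rfl hsY]
    exact hs2'.1
  · rw [PAB_ep, PAB_ep, PAB_dif X s (fun v => (dgs G Xᶜ v : ℝ)) hs,
      Finset.sum_congr rfl (fun v hv => by rw [hsX v hv])]
    exact hs1'.2 _ (by positivity) (fun v _ => PAB_dgs_le G Xᶜ v)
  · have h1 : (ep G X (Xᶜ ∩ (Finset.univ.filter fun v => s v = 1)) : ℝ) -
        ep G X (Xᶜ \ (Finset.univ.filter fun v => s v = 1)) =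
        ∑ y ∈ Xᶜ, s y * (dgs G X y : ℝ) := by
      rw [PAB_ep, PAB_ep, ← Finset.sum_sub_distrib, Finset.sum_congr rfl (fun v _ => hdg Xᶜ v),
        Finset.sum_comm]
      apply Finset.sum_congr rfl
      intro y _
      rw [← Finset.mul_sum, PAB_dgs]
      congr 1
      apply Finset.sum_congr rfl
      intro x _
      simp only [G.adj_comm x y]
    rw [h1, Finset.sum_congr rfl (fun v hv => by rw [hsY v hv])]
    exact hs2'.2 _ (by positivity) (fun v _ => PAB_dgs_le G X v)
  · have h1 : (ep G (X ∩ (Finset.univ.filter fun v => s v = 1))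
          (Xᶜ ∩ (Finset.univ.filter fun v => s v = 1)) : ℝ) +
        ep G (X \ (Finset.univ.filter fun v => s v = 1))
          (Xᶜ \ (Finset.univ.filter fun v => s v = 1)) -
        ep G (X ∩ (Finset.univ.filter fun v => s v = 1))
          (Xᶜ \ (Finset.univ.filter fun v => s v = 1)) -
        ep G (X \ (Finset.univ.filter fun v => s v = 1))
          (Xᶜ ∩ (Finset.univ.filter fun v => s v = 1)) =
        ∑ e ∈ (X ×ˢ Xᶜ).filter (fun e => G.Adj e.1 e.2),
          sg e.1 * PAB_e σ (p e.1) * (sg e.2 * PAB_e σ (p e.2)) := by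
      have h2 : ∀ P : Finset V, (ep G P (Xᶜ ∩ (Finset.univ.filter fun v => s v = 1)) : ℝ) -
          ep G P (Xᶜ \ (Finset.univ.filter fun v => s v = 1)) =
          ∑ x ∈ P, ∑ y ∈ Xᶜ, s y * (if G.Adj x y then (1 : ℝ) else 0) := by
        intro P
        rw [PAB_ep, PAB_ep, ← Finset.sum_sub_distrib, Finset.sum_congr rfl (fun v _ => hdg Xᶜ v)]
      have h3 := PAB_dif X s (fun x => ∑ y ∈ Xᶜ, s y * (if G.Adj x y then (1 : ℝ) else 0)) hs
      rw [← h2, ← h2] at h3
      have h4 : ∑ x ∈ X, s x * ∑ y ∈ Xᶜ, s y * (if G.Adj x y then (1 : ℝ) else 0) =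
          ∑ e ∈ (X ×ˢ Xᶜ).filter (fun e => G.Adj e.1 e.2),
          sg e.1 * PAB_e σ (p e.1) * (sg e.2 * PAB_e σ (p e.2)) := by
        rw [Finset.sum_filter, Finset.sum_product]
        apply Finset.sum_congr rfl
        intro x _
        rw [Finset.mul_sum]
        apply Finset.sum_congr rfl
        intro y _
        by_cases hxy : G.Adj x y <;> simp [hxy, hsdef]
      rw [← h4, ← h3]
      ring
    rw [h1]
    exact he

end

end Pool.Agent.OF
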